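import Pool.Agent.Lib.MP_562b47_mp.ST.Det
import Pool.Agent.Lib.MP_562b47_mp.WO.Weights

/-!
MP_562b47, section 3 (START): the functional of the world `(m, t, a)` is at most `K(a) |ι|`, with a
constant which does not depend on the backgrounds `et j`.
-/

open MeasureTheory Matrix Finset

set_option linter.unusedSectionVars false

namespace Pool.Agent.Lib.MP_562b47_mp.ST

open Pool.Agent.Lib.MP_562b47_mp.AL Pool.Agent.Lib.MP_562b47_mp.WO Pool.Agent.Lib.MP_562b47_mp

variable {ι 𝔅 κ : Type*} [Fintype ι] [DecidableEq ι] [Fintype 𝔅] [DecidableEq 𝔅] [Fintype κ]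

/-- bounds by class: size of the blocks, lower bound of the strength -/
structure Cls (S : Sys ι 𝔅) (A : Matrix ι ι ℝ) (nQ gl : ℕ → ℝ) : Prop where
  size : ∀ b, ((S.Q b).card : ℝ) ≤ nQ (S.cls b)
  gl_pos : ∀ j, 0 < gl j
  gl_le : ∀ b V, S.comp b V → gl (S.cls b) ≤ S.gg A b V

/-- cost of a complete block of class `j` -/
noncomputable def Wj (nQ gl Rb : ℕ → ℝ) (d a : ℝ) (j : ℕ) : ℝ :=
  nQ j * (nQ j ^ 2 * (1 + 4 * (d ^ 2 + 1) * Rb j ^ 2) * (1 / a + 1 / gl j)) ^ 2

theorem cost_le {S : Sys ι 𝔅} {A : Matrix ι ι ℝ} {Rb nQ gl : ℕ → ℝ} (hC : Cls S A nQ gl) {d a : ℝ}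
    (ha : 0 < a) {V : ι → ℝ} {b : 𝔅} (hb : S.comp b V) :
    (S.Q b).card * Wb S A Rb d a V b ^ 2 ≤ Wj nQ gl Rb d a (S.cls b) := by
  unfold Wb Wj
  have h1 := hC.size b
  have h2 := hC.gl_pos (S.cls b)
  have h3 := hC.gl_le b V hb
  have h4 : (0 : ℝ) ≤ (S.Q b).card := Nat.cast_nonneg _
  have h5 : 1 / S.gg A b V ≤ 1 / gl (S.cls b) := one_div_le_one_div_of_le h2 h3
  have h6 : 0 < S.gg A b V := h2.trans_le h3
  have h7 : 0 ≤ 1 / S.gg A b V := by positivity
  have h8 : 0 ≤ nQ (S.cls b) := h4.trans h1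
  gcongr

theorem Wj_nonneg {nQ gl Rb : ℕ → ℝ} {d a : ℝ} {j : ℕ} (h : 0 ≤ nQ j) : 0 ≤ Wj nQ gl Rb d a j := by
  unfold Wj
  positivity

/-- START for a fixed world -/
theorem start_world {S : Sys ι 𝔅} {A : Matrix ι ι ℝ} (hS : Good S A) {ξ : κ → ι → ℝ}
    {N : ι → Finset ι} {d : ℝ} (hG : Geo A ξ N d) {Rb : ℕ → ℝ} (hI : Inner S A Rb) {a : ℝ}
    (ha : 0 < a) (ha1 : a ≤ 1) (m : ℕ) {V : ι → ℝ} {Ac : Finset 𝔅} (hAc : Ac ⊆ S.Comp V) :
    DU A ξ (S.uA A m a Ac V) ≤ 32 * Fintype.card κ * d ^ 2 *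
      (Fintype.card ι / a ^ 2 +
        ∑ b ∈ (S.Comp V).filter (fun b => m < S.cls b), (S.Q b).card * Wb S A Rb d a V b ^ 2) := by
  have hD : (S.Comp V).filter (fun b => m < S.cls b) ⊆ S.Comp V := filter_subset _ _
  refine start_det hS hG hI ha ha1 hD (S.uA_loss hS ha hAc) ?_ ?_ ?_
  · intro b hb x hx
    have hb' := mem_filter.mp hb
    have hx' := (S.mem_inn).mp hx
    rw [S.uA_inn hAc hb'.1 hx'.2.1 hx'.1, S.bk_in hb'.1 hb'.2 hx]
  · intro b hb x hx hxi
    have hb' := mem_filter.mp hb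
    have hgp : 0 < S.gg A b V := hS.g_pos b V ((S.mem_Comp).mp hb'.1)
    have hp1 : 0 < 1 / a := by positivity
    have hp2 : 0 < 1 / S.gg A b V := by positivity
    by_cases hxw : x = S.w b
    · rw [hxw]
      by_cases hbA : b ∈ Ac
      · have h1 : gam (S.uA A m a Ac V) (S.w b) = S.gg A b V + S.et (S.cls b) := by
          rw [gam, S.uA_w_high hAc hbA hb'.2]
          simp
        rw [h1]
        have h2 := S.et_pos (S.cls b)
        have h3 : 1 / (S.gg A b V + S.et (S.cls b)) ≤ 1 / S.gg A b V :=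
          one_div_le_one_div_of_le hgp (by linarith)
        linarith
      · have h1 : gam (S.uA A m a Ac V) (S.w b) = a := by
          rw [gam, S.uA_w_off hAc hb'.1 hbA]
          simp
        rw [h1]
        linarith
    · have h1 : gam (S.uA A m a Ac V) x = a := by
        rw [gam, S.uA_inn hAc hb'.1 hx hxw, S.bk_block hb'.1 hx hxi]
        simp
      rw [h1]
      linarith
  · intro x hx
    have h0 : S.bk m a V x = a := by
      refine S.bk_off fun b hb hm hxi => ?_
      exact hx b (mem_filter.mpr ⟨hb, hm⟩) (S.inn_sub hxi)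
    by_cases hxw : ∃ b ∈ Ac, x = S.w b
    · obtain ⟨b, hb, rfl⟩ := hxw
      have hgp : 0 < S.gg A b V := hS.g_pos b V ((S.mem_Comp).mp (hAc hb))
      have hm : S.cls b ≤ m := by
        by_contra h
        exact hx b (mem_filter.mpr ⟨hAc hb, not_le.mp h⟩) (S.w_mem b)
      have h1 : gam (S.uA A m a Ac V) (S.w b) = S.gg A b V + a := by
        rw [gam, S.uA_w hAc hb hm]
        simp
      rw [h1]
      exact one_div_le_one_div_of_le ha (by linarith)
    · push Not at hxw
      have h1 : gam (S.uA A m a Ac V) x = a := by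
        rw [gam, S.uA_off hxw, h0]
        simp
      rw [h1]

/-- START: `Σ_b P(b complete) · cost(class b)` -/
theorem start_sum {S : Sys ι 𝔅} {A : Matrix ι ι ℝ} (hS : Good S A) {ξ : κ → ι → ℝ}
    {N : ι → Finset ι} {d : ℝ} (hG : Geo A ξ N d) {Rb nQ gl : ℕ → ℝ} (hI : Inner S A Rb)
    (hC : Cls S A nQ gl) {a : ℝ} (ha : 0 < a) (ha1 : a ≤ 1) (m : ℕ) {t : ℝ} (h0 : 0 ≤ t)
    (h1 : t ≤ 1) :
    S.Dw A ξ m t a ≤ 32 * Fintype.card κ * d ^ 2 *
      (Fintype.card ι / a ^ 2 + ∑ b ∈ univ.filter (fun b => m < S.cls b),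
        S.mu.real {V | S.comp b V} * Wj nQ gl Rb d a (S.cls b)) := by
  classical
  unfold Sys.Dw
  set K : ℝ := 32 * Fintype.card κ * d ^ 2 with hK
  have hK0 : 0 ≤ K := by positivity
  have hadm := S.adm_pim (m := m) h0 h1
  -- the bound, as a functional of the world
  set F' : Finset 𝔅 → (ι → ℝ) → ℝ := fun _ V => K * (Fintype.card ι / a ^ 2 +
    ∑ b ∈ univ.filter (fun b => m < S.cls b),
      Set.indicator {V : ι → ℝ | S.comp b V} (fun _ => Wj nQ gl Rb d a (S.cls b)) V) with hF'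
  have hF'm : ∀ Ac, Measurable (F' Ac) := by
    intro Ac
    refine (measurable_const.add (Finset.measurable_fun_sum _ fun b _ => ?_)).const_mul _
    exact measurable_const.indicator (S.measurableSet_comp b)
  have hW0 : ∀ b : 𝔅, 0 ≤ Wj nQ gl Rb d a (S.cls b) := fun b =>
    Wj_nonneg ((Nat.cast_nonneg _).trans (hC.size b))
  have hbd : Sys.Bdd S F' := by
    refine ⟨hF'm, K * (Fintype.card ι / a ^ 2 + ∑ b ∈ univ.filter (fun b => m < S.cls b),
      Wj nQ gl Rb d a (S.cls b)), fun V Ac _ => ?_⟩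
    have hnn : 0 ≤ F' Ac V := by
      rw [hF']
      simp only
      refine mul_nonneg hK0 (add_nonneg (by positivity) (sum_nonneg fun b _ => ?_))
      exact Set.indicator_nonneg (fun _ _ => hW0 b) _
    rw [abs_of_nonneg hnn, hF']
    simp only
    gcongr with b _
    exact Set.indicator_le_self' (fun _ _ => hW0 b) V
  refine (S.Ex_mono hS hadm (S.bdd_DU hS ξ m ha) hbd fun V Ac hA => ?_).trans (le_of_eq ?_)
  · refine (start_world hS hG hI ha ha1 m hA).trans ?_
    rw [hF']
    simp only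
    refine mul_le_mul_of_nonneg_left ?_ hK0
    gcongr
    have h2 : ∑ b ∈ univ.filter (fun b => m < S.cls b),
        Set.indicator {V : ι → ℝ | S.comp b V} (fun _ => Wj nQ gl Rb d a (S.cls b)) V =
        ∑ b ∈ (S.Comp V).filter (fun b => m < S.cls b), Wj nQ gl Rb d a (S.cls b) := by
      have h3 : (S.Comp V).filter (fun b => m < S.cls b) =
          (univ.filter (fun b => m < S.cls b)).filter (fun b => S.comp b V) := by
        ext b
        simp only [mem_filter, mem_univ, true_and, S.mem_Comp]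
        exact and_comm
      rw [h3, sum_filter (fun b => S.comp b V)]
      refine sum_congr rfl fun b _ => ?_
      by_cases hb : S.comp b V
      · rw [Set.indicator_of_mem (show V ∈ {V : ι → ℝ | S.comp b V} from hb), if_pos hb]
      · rw [Set.indicator_of_notMem (show V ∉ {V : ι → ℝ | S.comp b V} from hb), if_neg hb]
    rw [h2]
    refine sum_le_sum fun b hb => ?_
    exact cost_le hC ha ((S.mem_Comp).mp (mem_filter.mp hb).1)
  · -- the expectation
    rw [S.Ex_eq]
    have h2 : ∀ V, S.Ei A (S.pim m t) F' V = F' ∅ V := by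
      intro V
      unfold Sys.Ei
      have : ∀ Ac : Finset 𝔅, F' Ac V = F' ∅ V := fun Ac => rfl
      simp_rw [this]
      rw [← sum_mul, S.wt_sum, one_mul]
    simp_rw [h2]
    rw [hF']
    simp only
    rw [integral_const_mul, integral_add (integrable_const _), integral_finsetSum]
    · rw [integral_const, probReal_univ, one_smul]
      congr 2
      refine sum_congr rfl fun b _ => ?_
      rw [integral_indicator (S.measurableSet_comp b), setIntegral_const, smul_eq_mul]
    · intro b _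
      exact (integrable_const _).indicator (S.measurableSet_comp b)
    · refine integrable_finsetSum _ fun b _ => ?_
      exact (integrable_const _).indicator (S.measurableSet_comp b)

/-- the probability that a block is complete -/
theorem prob_comp (S : Sys ι 𝔅) (b : 𝔅) : S.mu.real {V | S.comp b V} =
    ∏ x ∈ (S.Q b).erase (S.w b), (S.hi b x - S.lo b x) / (2 * S.c) := by
  classical
  have hc := S.c_pos
  have := unif_prob S.c_pos
  have h1 : {V : ι → ℝ | S.comp b V} = Set.pi Set.univ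
      (fun x => if x ∈ (S.Q b).erase (S.w b) then Set.Icc (S.lo b x) (S.hi b x) else Set.univ) := by
    ext V
    simp only [Set.mem_pi, Set.mem_univ, true_implies, mem_erase]
    constructor
    · intro h x
      split_ifs with hx
      · exact h x hx.2 hx.1
      · trivial
    · intro h x hx hxw
      have := h x
      rwa [if_pos ⟨hxw, hx⟩] at this
  have h2 : ∀ x, unif S.c (Set.Icc (S.lo b x) (S.hi b x)) =
      ENNReal.ofReal ((S.hi b x - S.lo b x) / (2 * S.c)) := by
    intro x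
    have h3 : 0 ≤ S.hi b x - S.lo b x := by linarith [S.lo_lt b x]
    have h4 : 0 < 2 * S.c := by linarith
    unfold unif
    rw [Measure.smul_apply, Measure.restrict_apply measurableSet_Icc, Set.inter_eq_left.mpr
      (Set.Icc_subset_Icc (S.lo_ge b x) (S.hi_le b x)), Real.volume_Icc, smul_eq_mul,
      ← ENNReal.ofReal_inv_of_pos h4, ← ENNReal.ofReal_mul (by positivity)]
    congr 1
    rw [div_eq_mul_inv, mul_comm]
  rw [Measure.real, h1]
  unfold Sys.mu
  rw [Measure.pi_pi, ENNReal.toReal_prod]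
  rw [← prod_subset (subset_univ ((S.Q b).erase (S.w b)))]
  · refine prod_congr rfl fun x hx => ?_
    rw [if_pos hx, h2, ENNReal.toReal_ofReal]
    have := S.lo_lt b x
    have h3 : 0 ≤ S.hi b x - S.lo b x := by linarith
    positivity
  · intro x _ hx
    rw [if_neg hx, measure_univ, ENNReal.toReal_one]

/-- START: at most `mult |ι|` blocks in each class, `P j` = bound of the probability that a block of
class `j` is complete -/
theorem start {S : Sys ι 𝔅} {A : Matrix ι ι ℝ} (hS : Good S A) {ξ : κ → ι → ℝ}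
    {N : ι → Finset ι} {d : ℝ} (hG : Geo A ξ N d) {Rb nQ gl : ℕ → ℝ} (hI : Inner S A Rb)
    (hC : Cls S A nQ gl) {a : ℝ} (ha : 0 < a) (ha1 : a ≤ 1) (m : ℕ) {t : ℝ} (h0 : 0 ≤ t)
    (h1 : t ≤ 1) {P : ℕ → ℝ} {mult : ℝ} (hmult : ∀ j,
      ((univ.filter fun b => S.cls b = j).card : ℝ) ≤ mult * Fintype.card ι)
    (hP : ∀ b, S.mu.real {V | S.comp b V} ≤ P (S.cls b)) (hP0 : ∀ j, 0 ≤ P j)
    (hn0 : ∀ j, 0 ≤ nQ j) (hm0 : 0 ≤ mult)
    (hsum : Summable fun j => P j * Wj nQ gl Rb d a j) :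
    S.Dw A ξ m t a ≤ 32 * Fintype.card κ * d ^ 2 *
      (1 / a ^ 2 + mult * ∑' j, P j * Wj nQ gl Rb d a j) * Fintype.card ι := by
  classical
  refine (start_sum hS hG hI hC ha ha1 m h0 h1).trans ?_
  have hW0 : ∀ j, 0 ≤ P j * Wj nQ gl Rb d a j := fun j => mul_nonneg (hP0 j) (Wj_nonneg (hn0 j))
  have h2 : ∑ b ∈ univ.filter (fun b => m < S.cls b),
      S.mu.real {V | S.comp b V} * Wj nQ gl Rb d a (S.cls b) ≤
      mult * Fintype.card ι * ∑' j, P j * Wj nQ gl Rb d a j := by
    calc ∑ b ∈ univ.filter (fun b => m < S.cls b),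
        S.mu.real {V | S.comp b V} * Wj nQ gl Rb d a (S.cls b) ≤
        ∑ b ∈ univ.filter (fun b => m < S.cls b), P (S.cls b) * Wj nQ gl Rb d a (S.cls b) :=
          sum_le_sum fun b _ => mul_le_mul_of_nonneg_right (hP b) (Wj_nonneg (hn0 _))
      _ ≤ ∑ b, P (S.cls b) * Wj nQ gl Rb d a (S.cls b) :=
          sum_le_sum_of_subset_of_nonneg (filter_subset _ _) fun b _ _ => hW0 _
      _ = ∑ j ∈ univ.image S.cls, ∑ b ∈ univ.filter (fun b => S.cls b = j),
          P (S.cls b) * Wj nQ gl Rb d a (S.cls b) :=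
          (sum_fiberwise_of_maps_to (fun b _ => mem_image_of_mem _ (mem_univ b)) _).symm
      _ ≤ ∑ j ∈ univ.image S.cls, mult * Fintype.card ι * (P j * Wj nQ gl Rb d a j) := by
          refine sum_le_sum fun j _ => ?_
          rw [sum_congr rfl fun b hb => by rw [(mem_filter.mp hb).2], sum_const, nsmul_eq_mul]
          exact mul_le_mul_of_nonneg_right (hmult j) (hW0 j)
      _ = mult * Fintype.card ι * ∑ j ∈ univ.image S.cls, P j * Wj nQ gl Rb d a j := by
          rw [mul_sum]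
      _ ≤ _ := by
          refine mul_le_mul_of_nonneg_left ?_ (by positivity)
          exact hsum.sum_le_tsum _ fun j _ => hW0 j
  have h3 : 32 * Fintype.card κ * d ^ 2 * (Fintype.card ι / a ^ 2 +
      mult * Fintype.card ι * ∑' j, P j * Wj nQ gl Rb d a j) = 32 * Fintype.card κ * d ^ 2 *
      (1 / a ^ 2 + mult * ∑' j, P j * Wj nQ gl Rb d a j) * Fintype.card ι := by ring
  rw [← h3]
  gcongr

end Pool.Agent.Lib.MP_562b47_mp.ST
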