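import Pool.Agent.Lib.MP_562b47_mp.AL.Comm
import Pool.Agent.Lib.MP_562b47_mp.WO.Weights

/-!
# ST-Crude: deterministic bound of the functional in every world

If the coordinates `ζ` are constant across every edge which touches a site with small loss (all
other sites have loss `≥ a`), then
`γ_s ∑_x γ_x (ζ_x - ζ_s)² |G_xs|² ≤ R² / a²`, `R` = row sum bound of the current matrix.

Proof. `(ζ_x - ζ_s) G_xs = (G J G)_xs`, `J = [H, ζ]` lives on the sites with loss `≥ a`;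
`Γ^{1/2} G Γ^{1/2}` is a contraction, Schur test for `J`, and `γ_s ∑_x γ_x |G_xs|² ≤ 1`.

In the worlds of `WO`: `ζ = ξ` frozen at the centre on every complete block of class `> m`.
So `DU ≤ |ι| |κ| (3 (R₀ + 2 M R₁)² / a² + 6 M²)`, `M` = size of the blocks: this is the start of the
induction, and the bound of all rare events.
-/

open Matrix Finset

namespace Pool.Agent.Lib.MP_562b47_mp.ST

open Pool.Agent.Lib.MP_562b47_mp.AL Pool.Agent.Lib.MP_562b47_mp.WO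

section det

variable {ι κ : Type*} [Fintype ι] [DecidableEq ι] [Fintype κ]
variable {A : Matrix ι ι ℝ} {u : ι → ℂ}

theorem crude_site (hA : A.IsSymm) (hu : Loss u) (ζ : ι → ℝ) (off : ι → Prop) {a R : ℝ}
    (ha : 0 < a) (hoff : ∀ x, off x → a ≤ gam u x)
    (hJ : ∀ p q, A p q ≠ 0 → ζ p ≠ ζ q → off p ∧ off q)
    (hR : ∀ p, ∑ q, |A p q| * |ζ p - ζ q| ≤ R) (s : ι) :
    gam u s * ∑ x, gam u x * (ζ x - ζ s) ^ 2 * ‖GM A u x s‖ ^ 2 ≤ R ^ 2 / a ^ 2 := by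
  classical
  have hγ : ∀ x, 0 < gam u x := fun x => gam_pos hu x
  have hR0 : 0 ≤ R := (sum_nonneg fun q _ => by positivity).trans (hR s)
  set v : ι → ℂ := fun p => ∑ q, Jm A ζ p q * GM A u q s with hv
  set g : ι → ℝ := fun q => if off q then ‖GM A u q s‖ else 0 with hg
  have hJn : ∀ p q, ‖Jm A ζ p q‖ = |A p q| * |ζ p - ζ q| := by
    intro p q
    rw [Jm, of_apply, norm_mul, Complex.norm_real, Complex.norm_real, Real.norm_eq_abs,
      Real.norm_eq_abs, abs_sub_comm (ζ q) (ζ p)]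
  have hJ0 : ∀ p q, ¬ (off p ∧ off q) → Jm A ζ p q = 0 := by
    intro p q h
    rw [Jm, of_apply]
    by_cases h1 : A p q = 0
    · rw [h1]; simp
    · by_cases h2 : ζ p = ζ q
      · rw [h2]; simp
      · exact absurd (hJ p q h1 h2) h
  have hcol : ∀ q, ∑ p, |A p q| * |ζ p - ζ q| ≤ R := by
    intro q
    refine le_trans (le_of_eq ?_) (hR q)
    refine sum_congr rfl fun p _ => ?_
    rw [abs_sub_comm, hA.apply q p]
  -- the commutator
  have hcomm : ∀ x, ((ζ x - ζ s : ℝ) : ℂ) * GM A u x s = ∑ p, GM A u x p * v p := by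
    intro x
    have h1 := congrFun (congrFun (comm_mat hA hu ζ) x) s
    rw [Matrix.sub_apply, mul_diagonal, diagonal_mul, mul_assoc, mul_apply] at h1
    have h2 : ∀ p, (Jm A ζ * GM A u) p s = v p := fun p => by rw [mul_apply]
    simp_rw [h2] at h1
    rw [← h1]
    push_cast
    ring
  have hv0 : ∀ p, ¬ off p → v p = 0 := by
    intro p hp
    exact sum_eq_zero fun q _ => by rw [hJ0 p q fun h => hp h.1, zero_mul]
  have hvn : ∀ p, ‖v p‖ ^ 2 ≤ R * ∑ q, |A p q| * |ζ p - ζ q| * g q ^ 2 := by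
    intro p
    have h1 : ‖v p‖ ≤ ∑ q, |A p q| * |ζ p - ζ q| * g q := by
      refine (norm_sum_le _ _).trans (sum_le_sum fun q _ => ?_)
      by_cases h : off p ∧ off q
      · rw [norm_mul, hJn, hg]
        simp only [if_pos h.2, le_refl]
      · rw [hJ0 p q h, zero_mul, norm_zero]
        have : 0 ≤ g q := by
          rw [hg]; simp only; split_ifs <;> positivity
        positivity
    have h2 : (∑ q, |A p q| * |ζ p - ζ q| * g q) ^ 2 ≤
        (∑ q, |A p q| * |ζ p - ζ q|) * ∑ q, |A p q| * |ζ p - ζ q| * g q ^ 2 := by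
      have h3 := sum_mul_sq_le_sq_mul_sq univ (fun q => Real.sqrt (|A p q| * |ζ p - ζ q|))
        (fun q => Real.sqrt (|A p q| * |ζ p - ζ q|) * g q)
      have h4 : ∀ q, Real.sqrt (|A p q| * |ζ p - ζ q|) * (Real.sqrt (|A p q| * |ζ p - ζ q|) * g q) =
          |A p q| * |ζ p - ζ q| * g q := by
        intro q
        rw [← mul_assoc, Real.mul_self_sqrt (by positivity)]
      have h5 : ∀ q, Real.sqrt (|A p q| * |ζ p - ζ q|) ^ 2 = |A p q| * |ζ p - ζ q| := by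
        intro q
        rw [Real.sq_sqrt (by positivity)]
      have h6 : ∀ q, (Real.sqrt (|A p q| * |ζ p - ζ q|) * g q) ^ 2 =
          |A p q| * |ζ p - ζ q| * g q ^ 2 := by
        intro q
        rw [mul_pow, Real.sq_sqrt (by positivity)]
      simp_rw [h4, h5, h6] at h3
      exact h3
    have h7 : 0 ≤ ∑ q, |A p q| * |ζ p - ζ q| * g q ^ 2 := sum_nonneg fun q _ => by positivity
    calc ‖v p‖ ^ 2 ≤ (∑ q, |A p q| * |ζ p - ζ q| * g q) ^ 2 :=
          pow_le_pow_left₀ (norm_nonneg _) h1 2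
      _ ≤ _ := h2
      _ ≤ _ := mul_le_mul_of_nonneg_right (hR p) h7
  have hvs : ∑ p, ‖v p‖ ^ 2 ≤ R ^ 2 * ∑ q, g q ^ 2 := by
    calc ∑ p, ‖v p‖ ^ 2 ≤ ∑ p, R * ∑ q, |A p q| * |ζ p - ζ q| * g q ^ 2 :=
          sum_le_sum fun p _ => hvn p
      _ = R * ∑ q, (∑ p, |A p q| * |ζ p - ζ q|) * g q ^ 2 := by
          rw [← mul_sum, sum_comm]
          simp_rw [sum_mul]
      _ ≤ R * ∑ q, R * g q ^ 2 := by
          apply mul_le_mul_of_nonneg_left _ hR0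
          exact sum_le_sum fun q _ => mul_le_mul_of_nonneg_right (hcol q) (sq_nonneg _)
      _ = R ^ 2 * ∑ q, g q ^ 2 := by rw [← mul_sum]; ring
  have hgs : a * ∑ q, g q ^ 2 ≤ ∑ q, gam u q * ‖GM A u q s‖ ^ 2 := by
    rw [mul_sum]
    refine sum_le_sum fun q _ => ?_
    rw [hg]
    simp only
    by_cases h : off q
    · rw [if_pos h]
      exact mul_le_mul_of_nonneg_right (hoff q h) (sq_nonneg _)
    · rw [if_neg h]
      have := (hγ q).le
      rw [zero_pow two_ne_zero, mul_zero]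
      positivity
  -- contraction
  have hcon := (ward hA hu).contract (fun x => (hγ x).le) (fun p => v p / (Real.sqrt (gam u p) : ℂ))
  have hsq : ∀ p, (Real.sqrt (gam u p) : ℂ) * (v p / (Real.sqrt (gam u p) : ℂ)) = v p := by
    intro p
    have : (Real.sqrt (gam u p) : ℂ) ≠ 0 := by
      exact_mod_cast (Real.sqrt_pos.2 (hγ p)).ne'
    field_simp
  have hnum : a * ∑ p, ‖v p / (Real.sqrt (gam u p) : ℂ)‖ ^ 2 ≤ ∑ p, ‖v p‖ ^ 2 := by
    rw [mul_sum]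
    refine sum_le_sum fun p _ => ?_
    by_cases h : off p
    · rw [norm_div, div_pow, Complex.norm_real, Real.norm_of_nonneg (Real.sqrt_nonneg _),
        Real.sq_sqrt (hγ p).le, mul_div_assoc']
      rw [div_le_iff₀ (hγ p), mul_comm]
      exact mul_le_mul_of_nonneg_left (hoff p h) (sq_nonneg _)
    · rw [hv0 p h]; simp
  simp_rw [hsq, ← hcomm] at hcon
  have hlhs : ∑ x, gam u x * (ζ x - ζ s) ^ 2 * ‖GM A u x s‖ ^ 2 =
      ∑ x, gam u x * ‖((ζ x - ζ s : ℝ) : ℂ) * GM A u x s‖ ^ 2 := by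
    refine sum_congr rfl fun x _ => ?_
    rw [norm_mul, mul_pow, Complex.norm_real, Real.norm_eq_abs, sq_abs]
    ring
  rw [hlhs]
  set T := ∑ x, gam u x * ‖((ζ x - ζ s : ℝ) : ℂ) * GM A u x s‖ ^ 2 with hT
  have hcs := col_le hA hu s
  rw [le_div_iff₀ (by positivity)]
  have e1 : a * T ≤ ∑ p, ‖v p‖ ^ 2 := (mul_le_mul_of_nonneg_left hcon ha.le).trans hnum
  have e2 : a * (a * T) ≤ R ^ 2 * ∑ q, gam u q * ‖GM A u q s‖ ^ 2 := by
    calc a * (a * T) ≤ a * (R ^ 2 * ∑ q, g q ^ 2) :=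
          mul_le_mul_of_nonneg_left (e1.trans hvs) ha.le
      _ = R ^ 2 * (a * ∑ q, g q ^ 2) := by ring
      _ ≤ _ := mul_le_mul_of_nonneg_left hgs (sq_nonneg _)
  calc gam u s * T * a ^ 2 = gam u s * (a * (a * T)) := by ring
    _ ≤ gam u s * (R ^ 2 * ∑ q, gam u q * ‖GM A u q s‖ ^ 2) :=
        mul_le_mul_of_nonneg_left e2 (hγ s).le
    _ = R ^ 2 * (gam u s * ∑ q, gam u q * ‖GM A u q s‖ ^ 2) := by ring
    _ ≤ R ^ 2 * 1 := mul_le_mul_of_nonneg_left hcs (sq_nonneg _)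
    _ = R ^ 2 := mul_one _

theorem crude_ff (hA : A.IsSymm) (hu : Loss u) (ξ ζ : κ → ι → ℝ) (off : ι → Prop) {a R M : ℝ}
    (ha : 0 < a) (hoff : ∀ x, off x → a ≤ gam u x)
    (hJ : ∀ j p q, A p q ≠ 0 → ζ j p ≠ ζ j q → off p ∧ off q)
    (hR : ∀ j p, ∑ q, |A p q| * |ζ j p - ζ j q| ≤ R) (hM : ∀ j x, |ξ j x - ζ j x| ≤ M) (s : ι) :
    gam u s * ∑ x, gam u x * ff ξ x s * ‖GM A u x s‖ ^ 2 ≤
      Fintype.card κ * (3 * (R ^ 2 / a ^ 2) + 6 * M ^ 2) := by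
  have hγ : ∀ x, 0 < gam u x := fun x => gam_pos hu x
  have h1 : ∀ j x, (ξ j x - ξ j s) ^ 2 ≤ 3 * (ζ j x - ζ j s) ^ 2 + 6 * M ^ 2 := by
    intro j x
    have e1 := hM j x
    have e2 := hM j s
    have e3 : (ξ j x - ζ j x) ^ 2 ≤ M ^ 2 := sq_le_sq' (by linarith [(abs_le.1 e1).1])
      (abs_le.1 e1).2
    have e4 : (ξ j s - ζ j s) ^ 2 ≤ M ^ 2 := sq_le_sq' (by linarith [(abs_le.1 e2).1])
      (abs_le.1 e2).2
    have e5 : ξ j x - ξ j s = (ζ j x - ζ j s) + (ξ j x - ζ j x) - (ξ j s - ζ j s) := by ring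
    rw [e5]
    nlinarith [sq_nonneg ((ζ j x - ζ j s) - (ξ j x - ζ j x)),
      sq_nonneg ((ζ j x - ζ j s) + (ξ j s - ζ j s)),
      sq_nonneg ((ξ j x - ζ j x) + (ξ j s - ζ j s))]
  have h2 : ∀ j, gam u s * ∑ x, gam u x * (ξ j x - ξ j s) ^ 2 * ‖GM A u x s‖ ^ 2 ≤
      3 * (R ^ 2 / a ^ 2) + 6 * M ^ 2 := by
    intro j
    have e1 := crude_site hA hu (ζ j) off ha hoff (hJ j) (hR j) s
    have e2 := col_le hA hu s
    have e3 : ∑ x, gam u x * (ξ j x - ξ j s) ^ 2 * ‖GM A u x s‖ ^ 2 ≤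
        3 * (∑ x, gam u x * (ζ j x - ζ j s) ^ 2 * ‖GM A u x s‖ ^ 2) +
          6 * M ^ 2 * ∑ x, gam u x * ‖GM A u x s‖ ^ 2 := by
      rw [mul_sum, mul_sum, ← sum_add_distrib]
      refine sum_le_sum fun x _ => ?_
      have e4 : 0 ≤ gam u x * ‖GM A u x s‖ ^ 2 := mul_nonneg (hγ x).le (sq_nonneg _)
      have e5 := mul_le_mul_of_nonneg_left (h1 j x) e4
      nlinarith [e5]
    have e6 := mul_le_mul_of_nonneg_left e3 (hγ s).le
    have e7 := mul_le_mul_of_nonneg_left e2 (by positivity : (0 : ℝ) ≤ 6 * M ^ 2)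
    nlinarith [e1, e6, e7]
  have h3 : gam u s * ∑ x, gam u x * ff ξ x s * ‖GM A u x s‖ ^ 2 =
      ∑ j, gam u s * ∑ x, gam u x * (ξ j x - ξ j s) ^ 2 * ‖GM A u x s‖ ^ 2 := by
    rw [← mul_sum, sum_comm]
    congr 1
    refine sum_congr rfl fun x _ => ?_
    rw [ff, mul_sum, sum_mul]
  rw [h3]
  refine (sum_le_sum fun j _ => h2 j).trans (le_of_eq ?_)
  rw [sum_const, nsmul_eq_mul, card_univ]

theorem crude_DU (hA : A.IsSymm) (hu : Loss u) (ξ ζ : κ → ι → ℝ) (off : ι → Prop) {a R M : ℝ}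
    (ha : 0 < a) (hoff : ∀ x, off x → a ≤ gam u x)
    (hJ : ∀ j p q, A p q ≠ 0 → ζ j p ≠ ζ j q → off p ∧ off q)
    (hR : ∀ j p, ∑ q, |A p q| * |ζ j p - ζ j q| ≤ R) (hM : ∀ j x, |ξ j x - ζ j x| ≤ M) :
    DU A ξ u ≤ Fintype.card ι * (Fintype.card κ * (3 * (R ^ 2 / a ^ 2) + 6 * M ^ 2)) := by
  have h1 : DU A ξ u = ∑ s, gam u s * ∑ x, gam u x * ff ξ x s * ‖GM A u x s‖ ^ 2 := by
    rw [DU, DD, sum_comm]
    refine sum_congr rfl fun s _ => ?_
    rw [mul_sum]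
    refine sum_congr rfl fun x _ => ?_
    ring
  rw [h1]
  refine (sum_le_sum fun s _ => crude_ff hA hu ξ ζ off ha hoff hJ hR hM s).trans (le_of_eq ?_)
  rw [sum_const, nsmul_eq_mul, card_univ]

end det

section world

variable {ι 𝔅 κ : Type*} [Fintype ι] [DecidableEq ι] [Fintype 𝔅] [DecidableEq 𝔅] [Fintype κ]
  (S : Sys ι 𝔅) {A : Matrix ι ι ℝ}

open Classical in
/-- the coordinates frozen at the centre on the complete blocks of class `> m` -/
noncomputable def frz (m : ℕ) (V : ι → ℝ) (ξ : ι → ℝ) (x : ι) : ℝ :=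
  if h : ∃ b, b ∈ S.Comp V ∧ m < S.cls b ∧ x ∈ S.Q b then ξ (S.w h.choose) else ξ x

theorem frz_in {m : ℕ} {V : ι → ℝ} (ξ : ι → ℝ) {b : 𝔅} (hb : b ∈ S.Comp V) (hm : m < S.cls b)
    {x : ι} (hx : x ∈ S.Q b) : frz S m V ξ x = ξ (S.w b) := by
  unfold frz
  have h : ∃ b, b ∈ S.Comp V ∧ m < S.cls b ∧ x ∈ S.Q b := ⟨b, hb, hm, hx⟩
  rw [dif_pos h]
  have h1 := h.choose_spec
  by_cases hne : h.choose = b
  · rw [hne]
  · exact absurd hx (S.not_mem_of_ne hb h1.1 hne h1.2.2)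

theorem frz_sub {m : ℕ} {V : ι → ℝ} (ξ : ι → ℝ) {M : ℝ} (hM0 : 0 ≤ M)
    (hM : ∀ b ∈ S.Comp V, m < S.cls b → ∀ x ∈ S.Q b, |ξ x - ξ (S.w b)| ≤ M) (x : ι) :
    |ξ x - frz S m V ξ x| ≤ M := by
  by_cases h : ∃ b, b ∈ S.Comp V ∧ m < S.cls b ∧ x ∈ S.Q b
  · obtain ⟨b, hb, hm, hx⟩ := h
    rw [frz_in S ξ hb hm hx]
    exact hM b hb hm x hx
  · unfold frz
    rw [dif_neg h, sub_self, abs_zero]
    exact hM0

/-- the deterministic bound in the worlds: every site -/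
theorem crude_world_site (hS : Good S A) {m : ℕ} {a R₀ R₁ M : ℝ} (ha : 0 < a) (ξ : κ → ι → ℝ)
    {Ac : Finset 𝔅} {V : ι → ℝ} (hAc : Ac ⊆ S.Comp V) (hM0 : 0 ≤ M)
    (hM : ∀ b ∈ S.Comp V, m < S.cls b → ∀ x ∈ S.Q b, ∀ j, |ξ j x - ξ j (S.w b)| ≤ M)
    (hR₀ : ∀ j p, ∑ q, |A p q| * |ξ j p - ξ j q| ≤ R₀)
    (hR₁ : ∀ p, ∑ q ∈ univ.erase p, |A p q| ≤ R₁) (s : ι) :
    gam (S.uA A m a Ac V) s *
        ∑ x, gam (S.uA A m a Ac V) x * ff ξ x s * ‖GM A (S.uA A m a Ac V) x s‖ ^ 2 ≤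
      Fintype.card κ * (3 * ((R₀ + 2 * M * R₁) ^ 2 / a ^ 2) + 6 * M ^ 2) := by
  have hu : Loss (S.uA A m a Ac V) := S.uA_loss hS ha hAc
  refine crude_ff hS.symm hu ξ (fun j => frz S m V (ξ j))
    (fun x => ∀ b ∈ S.Comp V, m < S.cls b → x ∉ S.qi b) ha ?_ ?_ ?_ ?_ s
  · intro x hx
    by_cases h : ∃ b ∈ Ac, x = S.w b
    · obtain ⟨b, hb, rfl⟩ := h
      have hm : S.cls b ≤ m := by
        by_contra hcon
        exact hx b (hAc hb) (by omega) (S.w_mem_qi b)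
      unfold gam
      rw [S.uA_w hAc hb hm, Complex.sub_im, Complex.ofReal_im, Complex.im_ofReal_mul, Complex.I_im]
      have h1 := hS.g_pos b V ((S.mem_Comp).mp (hAc hb))
      linarith
    · push Not at h
      have hbk : S.bk m a V x = a := S.bk_off fun b hb hm hx' =>
        hx b hb hm ((S.mem_qi).2 ((S.mem_inn).1 hx').2)
      unfold gam
      rw [S.uA_off h, Complex.sub_im, Complex.ofReal_im, Complex.im_ofReal_mul, Complex.I_im, hbk]
      linarith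
  · intro j p q hpq hne
    have key : ∀ p q, A p q ≠ 0 → frz S m V (ξ j) p ≠ frz S m V (ξ j) q →
        ∀ b ∈ S.Comp V, m < S.cls b → p ∉ S.qi b := by
      intro p q hpq hne b hb hm hp
      have hq : q ∈ S.Q b := by
        by_contra hq
        exact hpq (hS.sep b p hp q hq)
      exact hne (by rw [frz_in S (ξ j) hb hm ((S.mem_qi).1 hp).1, frz_in S (ξ j) hb hm hq])
    exact ⟨key p q hpq hne, key q p (by rwa [hS.symm.apply]) (Ne.symm hne)⟩
  · intro j p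
    have h1 : ∀ q, |A p q| * |frz S m V (ξ j) p - frz S m V (ξ j) q| ≤
        |A p q| * |ξ j p - ξ j q| + if q = p then 0 else 2 * M * |A p q| := by
      intro q
      by_cases hqp : q = p
      · rw [hqp, sub_self, abs_zero, mul_zero, if_pos rfl, add_zero]
        positivity
      · rw [if_neg hqp]
        have e1 := frz_sub S (ξ j) hM0 (fun b hb hm x hx => hM b hb hm x hx j) p
        have e2 := frz_sub S (ξ j) hM0 (fun b hb hm x hx => hM b hb hm x hx j) q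
        have e3 : |frz S m V (ξ j) p - frz S m V (ξ j) q| ≤ |ξ j p - ξ j q| + 2 * M := by
          have : frz S m V (ξ j) p - frz S m V (ξ j) q = (ξ j p - ξ j q) -
              (ξ j p - frz S m V (ξ j) p) + (ξ j q - frz S m V (ξ j) q) := by ring
          rw [this]
          refine (abs_add_le _ _).trans ?_
          have := abs_sub (ξ j p - ξ j q) (ξ j p - frz S m V (ξ j) p)
          linarith
        have e4 := mul_le_mul_of_nonneg_left e3 (abs_nonneg (A p q))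
        linarith
    refine (sum_le_sum fun q _ => h1 q).trans ?_
    rw [sum_add_distrib]
    refine add_le_add (hR₀ j p) ?_
    have h2 : ∑ q, (if q = p then (0 : ℝ) else 2 * M * |A p q|) =
        2 * M * ∑ q ∈ univ.erase p, |A p q| := by
      rw [mul_sum, ← Finset.add_sum_erase univ _ (mem_univ p), if_pos rfl, zero_add]
      refine sum_congr rfl fun q hq => ?_
      rw [if_neg (mem_erase.1 hq).1]
    rw [h2]
    exact mul_le_mul_of_nonneg_left (hR₁ p) (by positivity)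
  · intro j x
    exact frz_sub S (ξ j) hM0 (fun b hb hm x hx => hM b hb hm x hx j) x

/-- the deterministic bound of the functional in the worlds -/
theorem crude_world (hS : Good S A) {m : ℕ} {a R₀ R₁ M : ℝ} (ha : 0 < a) (ξ : κ → ι → ℝ)
    {Ac : Finset 𝔅} {V : ι → ℝ} (hAc : Ac ⊆ S.Comp V) (hM0 : 0 ≤ M)
    (hM : ∀ b ∈ S.Comp V, m < S.cls b → ∀ x ∈ S.Q b, ∀ j, |ξ j x - ξ j (S.w b)| ≤ M)
    (hR₀ : ∀ j p, ∑ q, |A p q| * |ξ j p - ξ j q| ≤ R₀)
    (hR₁ : ∀ p, ∑ q ∈ univ.erase p, |A p q| ≤ R₁) :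
    DU A ξ (S.uA A m a Ac V) ≤
      Fintype.card ι * (Fintype.card κ * (3 * ((R₀ + 2 * M * R₁) ^ 2 / a ^ 2) + 6 * M ^ 2)) := by
  have h1 : DU A ξ (S.uA A m a Ac V) = ∑ s, gam (S.uA A m a Ac V) s *
      ∑ x, gam (S.uA A m a Ac V) x * ff ξ x s * ‖GM A (S.uA A m a Ac V) x s‖ ^ 2 := by
    rw [DU, DD, sum_comm]
    refine sum_congr rfl fun s _ => ?_
    rw [mul_sum]
    refine sum_congr rfl fun x _ => ?_
    ring
  rw [h1]
  refine (sum_le_sum fun s _ => crude_world_site S hS ha ξ hAc hM0 hM hR₀ hR₁ s).trans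
    (le_of_eq ?_)
  rw [sum_const, nsmul_eq_mul, card_univ]

/-- START: the expectation of the functional in every world -/
theorem crude_Dw (hS : Good S A) {m : ℕ} {t a R₀ R₁ M : ℝ} (ht0 : 0 ≤ t) (ht1 : t ≤ 1)
    (ha : 0 < a) (ξ : κ → ι → ℝ) (hM0 : 0 ≤ M)
    (hM : ∀ b, ∀ x ∈ S.Q b, ∀ j, |ξ j x - ξ j (S.w b)| ≤ M)
    (hR₀ : ∀ j p, ∑ q, |A p q| * |ξ j p - ξ j q| ≤ R₀)
    (hR₁ : ∀ p, ∑ q ∈ univ.erase p, |A p q| ≤ R₁) :
    S.Dw A ξ m t a ≤
      Fintype.card ι * (Fintype.card κ * (3 * ((R₀ + 2 * M * R₁) ^ 2 / a ^ 2) + 6 * M ^ 2)) := by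
  rw [← S.Ex_const (A := A) (p := S.pim m t) (_ * _)]
  exact S.Ex_mono hS (S.adm_pim m ht0 ht1) (S.bdd_DU hS ξ m ha) (Sys.Bdd.const S _)
    fun V Ac hAc => crude_world S hS ha ξ hAc hM0 (fun b _ _ x hx j => hM b x hx j) hR₀ hR₁

end world

end Pool.Agent.Lib.MP_562b47_mp.ST
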