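import Pool.Agent.Lib.MP_562b47_mp.AL.Comm

/-!
MP_562b47, section 3 (start): Hilbert-Schmidt norm of `T1ᵀ J T2` for block-local `T1`, `T2` and a
nearest neighbour matrix `J`.
-/

open Matrix Finset

set_option linter.unusedSectionVars false

namespace Pool.Agent.Lib.MP_562b47_mp.ST

open Pool.Agent.Lib.MP_562b47_mp.AL

variable {ι : Type*} [Fintype ι] [DecidableEq ι]

theorem sum_mul_sq_le (s : Finset ι) (f g : ι → ℂ) :
    ‖∑ x ∈ s, f x * g x‖ ^ 2 ≤ s.card * ∑ x ∈ s, ‖f x‖ ^ 2 * ‖g x‖ ^ 2 := by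
  have h1 : ‖∑ x ∈ s, f x * g x‖ ≤ ∑ x ∈ s, ‖f x‖ * ‖g x‖ :=
    (norm_sum_le _ _).trans (sum_le_sum fun x _ => (norm_mul _ _).le)
  have h2 : (∑ x ∈ s, ‖f x‖ * ‖g x‖) ^ 2 ≤ s.card * ∑ x ∈ s, (‖f x‖ * ‖g x‖) ^ 2 :=
    sq_sum_le_card_mul_sum_sq
  calc ‖∑ x ∈ s, f x * g x‖ ^ 2 ≤ (∑ x ∈ s, ‖f x‖ * ‖g x‖) ^ 2 := by gcongr
    _ ≤ s.card * ∑ x ∈ s, (‖f x‖ * ‖g x‖) ^ 2 := h2
    _ = _ := by
        congr 1
        exact sum_congr rfl fun x _ => by ring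

/-- `S q` = support of the column `q` of `T1`; `N p` = neighbours of `p` -/
theorem hs_bilin (T1 T2 J : Matrix ι ι ℂ) (S : ι → Finset ι) (N : ι → Finset ι) (d : ℝ)
    (hS : ∀ p q, p ∉ S q → T1 p q = 0) (hN : ∀ p p', p' ∉ N p → J p p' = 0)
    (hNs : ∀ p p', p' ∈ N p → p ∈ N p')
    (hd : ∀ p, ((N p).card : ℝ) ≤ d) (hJ : ∀ p p', ‖J p p'‖ ≤ 1) (t1 t2 : ι → ℝ)
    (h1 : ∀ p, ∑ q, ((S q).card : ℝ) * ‖T1 p q‖ ^ 2 ≤ t1 p) (h2 : ∀ p, ∑ q, ‖T2 p q‖ ^ 2 ≤ t2 p) :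
    hs (T1ᵀ * J * T2) ≤ d ^ 2 / 2 * (∑ p, t1 p ^ 2 + ∑ p, t2 p ^ 2) := by
  have hd0 : ∀ p : ι, 0 ≤ d := fun p => (Nat.cast_nonneg _).trans (hd p)
  have ht1 : ∀ p, 0 ≤ t1 p := fun p => (sum_nonneg fun q _ => by positivity).trans (h1 p)
  have ht2 : ∀ p, 0 ≤ t2 p := fun p => (sum_nonneg fun q _ => by positivity).trans (h2 p)
  -- entries
  have e1 : ∀ q q', (T1ᵀ * J * T2) q q' = ∑ p ∈ S q, T1 p q * ∑ p' ∈ N p, J p p' * T2 p' q' := by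
    intro q q'
    rw [mul_assoc, mul_apply]
    rw [← sum_subset (subset_univ (S q))]
    · refine sum_congr rfl fun p _ => ?_
      rw [transpose_apply, mul_apply]
      congr 1
      rw [← sum_subset (subset_univ (N p))]
      intro p' _ hp'
      rw [hN p p' hp', zero_mul]
    · intro p _ hp
      rw [transpose_apply, hS p q hp, zero_mul]
  have e2 : ∀ q q', ‖(T1ᵀ * J * T2) q q'‖ ^ 2 ≤
      ∑ p ∈ S q, ((S q).card : ℝ) * ‖T1 p q‖ ^ 2 * (d * ∑ p' ∈ N p, ‖T2 p' q'‖ ^ 2) := by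
    intro q q'
    rw [e1]
    refine (sum_mul_sq_le _ _ _).trans ?_
    rw [mul_sum]
    refine sum_le_sum fun p _ => ?_
    have h3 : ‖∑ p' ∈ N p, J p p' * T2 p' q'‖ ^ 2 ≤ d * ∑ p' ∈ N p, ‖T2 p' q'‖ ^ 2 := by
      refine (sum_mul_sq_le _ _ _).trans ?_
      have h4 : ∑ p' ∈ N p, ‖J p p'‖ ^ 2 * ‖T2 p' q'‖ ^ 2 ≤ ∑ p' ∈ N p, ‖T2 p' q'‖ ^ 2 := by
        refine sum_le_sum fun p' _ => ?_
        have h5 : ‖J p p'‖ ^ 2 ≤ 1 := pow_le_one₀ (norm_nonneg _) (hJ p p')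
        calc ‖J p p'‖ ^ 2 * ‖T2 p' q'‖ ^ 2 ≤ 1 * ‖T2 p' q'‖ ^ 2 := by gcongr
          _ = _ := one_mul _
      exact mul_le_mul (hd p) h4 (sum_nonneg fun _ _ => by positivity) (hd0 p)
    calc ((S q).card : ℝ) * (‖T1 p q‖ ^ 2 * ‖∑ p' ∈ N p, J p p' * T2 p' q'‖ ^ 2)
        = ((S q).card : ℝ) * ‖T1 p q‖ ^ 2 * ‖∑ p' ∈ N p, J p p' * T2 p' q'‖ ^ 2 := by ring
      _ ≤ _ := by gcongr
  have e3 : ∀ q, ∑ q', ‖(T1ᵀ * J * T2) q q'‖ ^ 2 ≤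
      ∑ p ∈ S q, ((S q).card : ℝ) * ‖T1 p q‖ ^ 2 * (d * ∑ p' ∈ N p, t2 p') := by
    intro q
    refine (sum_le_sum fun q' _ => e2 q q').trans ?_
    rw [sum_comm]
    refine sum_le_sum fun p _ => ?_
    rw [← mul_sum, ← mul_sum]
    refine mul_le_mul_of_nonneg_left (mul_le_mul_of_nonneg_left ?_ (hd0 p)) (by positivity)
    rw [sum_comm]
    exact sum_le_sum fun p' _ => h2 p'
  have e4 : hs (T1ᵀ * J * T2) ≤ ∑ p, t1 p * (d * ∑ p' ∈ N p, t2 p') := by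
    unfold hs
    refine (sum_le_sum fun q _ => e3 q).trans ?_
    have h6 : ∀ q, ∑ p ∈ S q, ((S q).card : ℝ) * ‖T1 p q‖ ^ 2 * (d * ∑ p' ∈ N p, t2 p') =
        ∑ p, ((S q).card : ℝ) * ‖T1 p q‖ ^ 2 * (d * ∑ p' ∈ N p, t2 p') := by
      intro q
      refine sum_subset (subset_univ _) fun p _ hp => ?_
      rw [hS p q hp]
      simp
    simp_rw [h6]
    rw [sum_comm]
    refine sum_le_sum fun p _ => ?_
    rw [← sum_mul]
    exact mul_le_mul_of_nonneg_right (h1 p) (mul_nonneg (hd0 p)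
      (sum_nonneg fun p' _ => ht2 p'))
  refine e4.trans ?_
  have e5 : ∑ p, t1 p * (d * ∑ p' ∈ N p, t2 p') ≤
      d / 2 * (∑ p, ∑ p' ∈ N p, (t1 p ^ 2 + t2 p' ^ 2)) := by
    rw [mul_sum]
    refine sum_le_sum fun p _ => ?_
    have h7 : t1 p * (d * ∑ p' ∈ N p, t2 p') = d * ∑ p' ∈ N p, t1 p * t2 p' := by
      rw [← mul_sum]; ring
    rw [h7]
    have h8 : ∑ p' ∈ N p, t1 p * t2 p' ≤ ∑ p' ∈ N p, (t1 p ^ 2 + t2 p' ^ 2) / 2 := by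
      refine sum_le_sum fun p' _ => ?_
      nlinarith [sq_nonneg (t1 p - t2 p')]
    rw [← sum_div] at h8
    have := mul_le_mul_of_nonneg_left h8 (hd0 p)
    refine this.trans (le_of_eq ?_)
    ring
  refine e5.trans ?_
  by_cases hι : IsEmpty ι
  · simp
  rw [not_isEmpty_iff] at hι
  obtain ⟨p0⟩ := hι
  have hdd := hd0 p0
  have e6 : ∑ p, ∑ p' ∈ N p, (t1 p ^ 2 + t2 p' ^ 2) ≤ d * (∑ p, t1 p ^ 2 + ∑ p, t2 p ^ 2) := by
    simp_rw [sum_add_distrib]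
    rw [mul_add]
    refine add_le_add ?_ ?_
    · rw [mul_sum]
      refine sum_le_sum fun p _ => ?_
      rw [sum_const, nsmul_eq_mul]
      exact mul_le_mul_of_nonneg_right (hd p) (by positivity)
    · have h9 : ∑ p, ∑ p' ∈ N p, t2 p' ^ 2 = ∑ p', ∑ p ∈ N p', t2 p' ^ 2 := by
        have h10 : ∀ p, ∑ p' ∈ N p, t2 p' ^ 2 = ∑ p', if p' ∈ N p then t2 p' ^ 2 else 0 := by
          intro p
          rw [← sum_filter, filter_mem_eq_inter, univ_inter]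
        have h11 : ∀ p', ∑ p ∈ N p', t2 p' ^ 2 = ∑ p, if p ∈ N p' then t2 p' ^ 2 else 0 := by
          intro p
          rw [← sum_filter, filter_mem_eq_inter, univ_inter]
        simp_rw [h10, h11]
        rw [sum_comm]
        refine sum_congr rfl fun p' _ => sum_congr rfl fun p _ => ?_
        by_cases h : p' ∈ N p
        · rw [if_pos h, if_pos (hNs p p' h)]
        · rw [if_neg h, if_neg fun h' => h (hNs p' p h')]
      rw [h9, mul_sum]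
      refine sum_le_sum fun p _ => ?_
      rw [sum_const, nsmul_eq_mul]
      exact mul_le_mul_of_nonneg_right (hd p) (by positivity)
  calc d / 2 * (∑ p, ∑ p' ∈ N p, (t1 p ^ 2 + t2 p' ^ 2))
      ≤ d / 2 * (d * (∑ p, t1 p ^ 2 + ∑ p, t2 p ^ 2)) := by gcongr
    _ = d ^ 2 / 2 * (∑ p, t1 p ^ 2 + ∑ p, t2 p ^ 2) := by ring

end Pool.Agent.Lib.MP_562b47_mp.ST
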