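import Pool.Agent.Lib.MP_562b47_mp.ST.Elim
import Pool.Agent.Lib.MP_562b47_mp.ST.Hs

/-!
MP_562b47, section 3 (start): the deterministic bound of the functional for a world `(V, Ac)`.
-/

open Matrix Finset

set_option linter.unusedSectionVars false

namespace Pool.Agent.Lib.MP_562b47_mp.ST

open Pool.Agent.Lib.MP_562b47_mp.AL Pool.Agent.Lib.MP_562b47_mp.WO

variable {ι 𝔅 κ : Type*} [Fintype ι] [DecidableEq ι] [Fintype 𝔅] [DecidableEq 𝔅] [Fintype κ]

/-- the geometry: `N p` = neighbours of `p`, at most `d` of them, hopping at most `1`, steps at most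
`1` -/
structure Geo (A : Matrix ι ι ℝ) (ξ : κ → ι → ℝ) (N : ι → Finset ι) (d : ℝ) : Prop where
  supp : ∀ p q, p ≠ q → q ∉ N p → A p q = 0
  symN : ∀ p q, q ∈ N p → p ∈ N q
  card : ∀ p, ((N p).card : ℝ) ≤ d
  hop : ∀ p q, p ≠ q → |A p q| ≤ 1
  step : ∀ j p q, |A p q * (ξ j q - ξ j p)| ≤ 1

/-- bounds of the inner inverses of complete blocks -/
structure Inner (S : Sys ι 𝔅) (A : Matrix ι ι ℝ) (Rb : ℕ → ℝ) : Prop where
  nonneg : ∀ m, 0 ≤ Rb m
  le : ∀ b V, S.comp b V → ∀ x y, |RS A (S.inn b) V x y| ≤ Rb (S.cls b)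
  small : ∀ b, S.et (S.cls b) * (S.inn b).card * Rb (S.cls b) ≤ 1 / 2

section

variable (S : Sys ι 𝔅) (A : Matrix ι ι ℝ)

/-- support of the column `q` -/
def col (Ac : Finset 𝔅) (q : ι) : Finset ι :=
  insert q ((Ac.filter fun b => q ∈ S.Q b).biUnion S.inn)

/-- cost of the block `b` -/
noncomputable def Wb (Rb : ℕ → ℝ) (d a : ℝ) (V : ι → ℝ) (b : 𝔅) : ℝ :=
  ((S.Q b).card : ℝ) ^ 2 * (1 + 4 * (d ^ 2 + 1) * Rb (S.cls b) ^ 2) * (1 / a + 1 / S.gg A b V)

variable {S A}

theorem uniq {V : ι → ℝ} {Ac : Finset 𝔅} (hAc : Ac ⊆ S.Comp V) {b b' : 𝔅} (hb : b ∈ Ac)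
    (hb' : b' ∈ Ac) {x : ι} (hx : x ∈ S.Q b) (hx' : x ∈ S.Q b') : b' = b := by
  by_contra h
  exact S.not_mem_of_ne (hAc hb) (hAc hb') h hx' hx

theorem col_of_mem {V : ι → ℝ} {Ac : Finset 𝔅} (hAc : Ac ⊆ S.Comp V) {b : 𝔅} (hb : b ∈ Ac)
    {q : ι} (hq : q ∈ S.Q b) : col S Ac q = insert q (S.inn b) := by
  unfold col
  have : (Ac.filter fun b => q ∈ S.Q b) = {b} := by
    ext b'
    rw [mem_filter, mem_singleton]
    constructor
    · rintro ⟨h1, h2⟩
      exact uniq hAc hb h1 hq h2
    · rintro rfl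
      exact ⟨hb, hq⟩
  rw [this, singleton_biUnion]

theorem col_of_not {Ac : Finset 𝔅} {q : ι} (hq : ∀ b ∈ Ac, q ∉ S.Q b) : col S Ac q = {q} := by
  unfold col
  have : (Ac.filter fun b => q ∈ S.Q b) = ∅ := by
    ext b'
    rw [mem_filter]
    constructor
    · rintro ⟨h1, h2⟩
      exact absurd h2 (hq b' h1)
    · intro h; exact absurd h (notMem_empty _)
  rw [this, biUnion_empty]
  rfl

theorem card_inn_lt (b : 𝔅) : (S.inn b).card + 1 ≤ (S.Q b).card := by
  have h1 : S.inn b ⊆ (S.Q b).erase (S.w b) := by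
    intro x hx
    have := (S.mem_inn).mp hx
    exact mem_erase.mpr ⟨this.1, this.2.1⟩
  have h2 := card_le_card h1
  rw [card_erase_of_mem (S.w_mem b)] at h2
  have h3 : 0 < (S.Q b).card := card_pos.mpr ⟨_, S.w_mem b⟩
  omega

theorem col_card {V : ι → ℝ} {Ac : Finset 𝔅} (hAc : Ac ⊆ S.Comp V) {b : 𝔅} (hb : b ∈ Ac)
    {q : ι} (hq : q ∈ S.Q b) : ((col S Ac q).card : ℝ) ≤ (S.Q b).card := by
  rw [col_of_mem hAc hb hq]
  have h1 := card_insert_le q (S.inn b)
  have h2 := card_inn_lt (S := S) b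
  exact_mod_cast h1.trans h2

theorem one_le_col (Ac : Finset 𝔅) (q : ι) : (1 : ℝ) ≤ ((col S Ac q).card : ℝ) := by
  have : 0 < (col S Ac q).card := card_pos.mpr ⟨q, mem_insert_self _ _⟩
  exact_mod_cast this

end

/-- THE DETERMINISTIC START: `Ac` is any set of complete blocks; low absorption is allowed only in
their inner blocks -/
theorem start_det {S : Sys ι 𝔅} {A : Matrix ι ι ℝ} (hS : Good S A) {ξ : κ → ι → ℝ}
    {N : ι → Finset ι} {d : ℝ} (hG : Geo A ξ N d) {Rb : ℕ → ℝ} (hI : Inner S A Rb) {a : ℝ}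
    (ha : 0 < a) (ha1 : a ≤ 1) {V : ι → ℝ} {Ac : Finset 𝔅} (hAc : Ac ⊆ S.Comp V) {u : ι → ℂ}
    (hL : Loss u) (hinn : ∀ b ∈ Ac, ∀ x ∈ S.inn b,
      u x = (V x : ℂ) - ((S.et (S.cls b) : ℝ) : ℂ) * Complex.I)
    (hg4 : ∀ b ∈ Ac, ∀ x ∈ S.Q b, x ∉ S.inn b → 1 / gam u x ≤ 1 / a + 1 / S.gg A b V)
    (hoff : ∀ x, (∀ b ∈ Ac, x ∉ S.Q b) → 1 / gam u x ≤ 1 / a) :
    DU A ξ u ≤ 32 * Fintype.card κ * d ^ 2 *
      (Fintype.card ι / a ^ 2 + ∑ b ∈ Ac, (S.Q b).card * Wb S A Rb d a V b ^ 2) := by
  classical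
  have hγ : ∀ x, 0 < gam u x := fun x => gam_pos hL x
  have hsq : ∀ x, (Real.sqrt (gam u x) : ℂ) ≠ 0 := fun x => by
    have := Real.sqrt_pos.mpr (hγ x)
    exact_mod_cast this.ne'
  have hgg : ∀ b ∈ Ac, 0 < S.gg A b V := fun b hb => hS.g_pos b V ((S.mem_Comp).mp (hAc hb))
  have hcomp : ∀ b ∈ Ac, S.comp b V := fun b hb => (S.mem_Comp).mp (hAc hb)
  have hd0 : ∀ _ : ι, 0 ≤ d := fun p => (Nat.cast_nonneg _).trans (hG.card p)
  -- the inverse of the inner block
  set RR : 𝔅 → ι → ι → ℂ := fun b => RC A (S.inn b) u with hRR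
  have hRRle : ∀ b ∈ Ac, ∀ x y, ‖RR b x y‖ ≤ 2 * Rb (S.cls b) := by
    intro b hb x y
    refine RC_le hS.symm (S.inn b) hL V (hS.inv b V (hcomp b hb)) (S.et_pos _).le (hI.nonneg _)
      (fun z hz => hinn b hb z hz) (hI.le b V (hcomp b hb)) (hI.small b) x y
  have hinnQ : ∀ b x, x ∈ S.inn b → x ∈ S.Q b := fun b x hx => S.inn_sub hx
  -- the matrices
  set Tm : Matrix ι ι ℂ := of fun p q => (if p = q ∧ ∀ b ∈ Ac, p ∉ S.inn b then
      1 / (Real.sqrt (gam u p) : ℂ) else 0) +
      ∑ b ∈ Ac, (if q ∈ S.inn b then 0 else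
        -(∑ p', RR b p p' * (A p' q : ℂ)) / (Real.sqrt (gam u q) : ℂ)) with hTm
  set Rm : Matrix ι ι ℂ := of fun p x => ∑ b ∈ Ac, RR b p x * (Real.sqrt (gam u x) : ℂ) with hRm
  -- values
  have hT1 : ∀ p, (∀ b ∈ Ac, p ∉ S.inn b) → ∀ q, Tm p q =
      if p = q then 1 / (Real.sqrt (gam u p) : ℂ) else 0 := by
    intro p hp q
    rw [hTm, of_apply, sum_eq_zero, add_zero]
    · by_cases h : p = q
      · rw [if_pos ⟨h, hp⟩, if_pos h]
      · rw [if_neg fun h' => h h'.1, if_neg h]
    · intro b hb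
      split_ifs
      · rfl
      · rw [sum_eq_zero, neg_zero, zero_div]
        intro p' _
        rw [hRR]
        simp only
        rw [RC_left A u (hp b hb), zero_mul]
  have hT2 : ∀ b ∈ Ac, ∀ p ∈ S.inn b, ∀ q, Tm p q = if q ∈ S.inn b then 0 else
        -(∑ p', RR b p p' * (A p' q : ℂ)) / (Real.sqrt (gam u q) : ℂ) := by
    intro b hb p hp q
    rw [hTm, of_apply, if_neg, zero_add, sum_eq_single b]
    · intro b' hb' hne
      split_ifs
      · rfl
      · rw [sum_eq_zero, neg_zero, zero_div]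
        intro p' _
        rw [hRR]
        simp only
        rw [RC_left A u, zero_mul]
        intro h
        exact hne (uniq hAc hb hb' (hinnQ b p hp) (hinnQ b' p h))
    · intro h; exact absurd hb h
    · intro h
      exact h.2 b hb hp
  have hR1 : ∀ p, (∀ b ∈ Ac, p ∉ S.inn b) → ∀ x, Rm p x = 0 := by
    intro p hp x
    rw [hRm, of_apply]
    refine sum_eq_zero fun b hb => ?_
    rw [hRR]
    simp only
    rw [RC_left A u (hp b hb), zero_mul]
  have hR2 : ∀ b ∈ Ac, ∀ p ∈ S.inn b, ∀ x, Rm p x = RR b p x * (Real.sqrt (gam u x) : ℂ) := by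
    intro b hb p hp x
    rw [hRm, of_apply, sum_eq_single b]
    · intro b' hb' hne
      rw [hRR]
      simp only
      rw [RC_left A u, zero_mul]
      intro h
      exact hne (uniq hAc hb hb' (hinnQ b p hp) (hinnQ b' p h))
    · intro h; exact absurd hb h
  have hK : Km A u = Tm * Bm A u + Rm := by
    ext p x
    rw [Matrix.add_apply, mul_apply, Km, of_apply]
    by_cases hp : ∀ b ∈ Ac, p ∉ S.inn b
    · rw [hR1 p hp, add_zero, sum_eq_single p]
      · rw [hT1 p hp, if_pos rfl, Bm, of_apply]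
        have := hsq p
        field_simp
      · intro q _ hq
        rw [hT1 p hp, if_neg (Ne.symm hq), zero_mul]
      · intro h; exact absurd (mem_univ _) h
    · push Not at hp
      obtain ⟨b, hb, hpb⟩ := hp
      rw [hR2 b hb p hpb]
      have h1 := elim hS.symm (S.inn b) hL hpb x
      have h2 : ∀ q, Tm p q * Bm A u q x = -((if q ∈ S.inn b then 0 else
          ∑ p', RR b p p' * ((A p' q : ℂ) * GM A u q x)) * (Real.sqrt (gam u x) : ℂ)) := by
        intro q
        rw [hT2 b hb p hpb]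
        split_ifs
        · simp
        · rw [Bm, of_apply]
          have := hsq q
          have h3 : ∑ p', RR b p p' * ((A p' q : ℂ) * GM A u q x) =
              (∑ p', RR b p p' * (A p' q : ℂ)) * GM A u q x := by
            rw [sum_mul]
            exact sum_congr rfl fun p' _ => by ring
          rw [h3]
          field_simp
      simp_rw [h2]
      rw [sum_neg_distrib, ← sum_mul]
      have h4 : ∑ q, (if q ∈ S.inn b then 0 else
          ∑ p', RR b p p' * ((A p' q : ℂ) * GM A u q x)) =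
          ∑ p', RR b p p' * ∑ q ∈ univ \ S.inn b, (A p' q : ℂ) * GM A u q x := by
        have h5 : ∑ q, (if q ∈ S.inn b then 0 else
          ∑ p', RR b p p' * ((A p' q : ℂ) * GM A u q x)) =
          ∑ q ∈ univ \ S.inn b, ∑ p', RR b p p' * ((A p' q : ℂ) * GM A u q x) := by
          rw [← sum_sdiff (subset_univ (S.inn b)), sum_eq_zero (s := S.inn b), add_zero]
          · refine sum_congr rfl fun q hq => ?_
            rw [if_neg (mem_sdiff.mp hq).2]
          · intro q hq
            rw [if_pos hq]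
        rw [h5, sum_comm]
        refine sum_congr rfl fun p' _ => ?_
        rw [mul_sum]
      have h6 : ∑ p', RR b p p' * (if p' = x then (1 : ℂ) else 0) = RR b p x := by
        rw [sum_eq_single x]
        · simp
        · intro p' _ hp'
          rw [if_neg hp', mul_zero]
        · intro h; exact absurd (mem_univ _) h
      rw [h4, h1]
      simp_rw [mul_sub]
      rw [sum_sub_distrib]
      have h7 : ∑ p', RC A (S.inn b) u p p' * (if p' = x then (1 : ℂ) else 0) = RR b p x := h6
      rw [h7]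
      ring
  -- supports
  have hsup : ∀ b ∈ Ac, ∀ p ∈ S.inn b, ∀ q, q ∉ S.Q b → ∑ p', RR b p p' * (A p' q : ℂ) = 0 := by
    intro b hb p hp q hq
    refine sum_eq_zero fun p' _ => ?_
    by_cases hp' : p' ∈ S.inn b
    · have h1 := (S.mem_inn).mp hp'
      rw [hS.sep b p' ((S.mem_qi).mpr h1.2) q hq]
      simp
    · rw [hRR]
      simp only
      rw [RC_right A u p hp', zero_mul]
  have hTS : ∀ p q, p ∉ col S Ac q → Tm p q = 0 := by
    intro p q hpq
    have hpq1 : p ≠ q := fun h => hpq (by rw [h]; exact mem_insert_self _ _)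
    by_cases hp : ∀ b ∈ Ac, p ∉ S.inn b
    · rw [hT1 p hp, if_neg hpq1]
    · push Not at hp
      obtain ⟨b, hb, hpb⟩ := hp
      rw [hT2 b hb p hpb]
      split_ifs
      · rfl
      · by_cases hq : q ∈ S.Q b
        · exfalso
          apply hpq
          rw [col_of_mem hAc hb hq]
          exact mem_insert_of_mem hpb
        · rw [hsup b hb p hpb q hq, neg_zero, zero_div]
  have hRS' : ∀ p q, p ∉ col S Ac q → Rm p q = 0 := by
    intro p q hpq
    by_cases hp : ∀ b ∈ Ac, p ∉ S.inn b
    · exact hR1 p hp q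
    · push Not at hp
      obtain ⟨b, hb, hpb⟩ := hp
      rw [hR2 b hb p hpb]
      by_cases hq : q ∈ S.inn b
      · exfalso
        apply hpq
        rw [col_of_mem hAc hb (hinnQ b q hq)]
        exact mem_insert_of_mem hpb
      · rw [hRR]
        simp only
        rw [RC_right A u p hq, zero_mul]
  -- absorptions
  have hg3 : ∀ b ∈ Ac, ∀ x ∈ S.inn b, gam u x = S.et (S.cls b) := by
    intro b hb x hx
    rw [gam, hinn b hb x hx]
    simp
  -- the row sums
  set W : 𝔅 → ℝ := Wb S A Rb d a V with hW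
  have hWdef : ∀ b, W b = ((S.Q b).card : ℝ) ^ 2 * (1 + 4 * (d ^ 2 + 1) * Rb (S.cls b) ^ 2) *
      (1 / a + 1 / S.gg A b V) := fun b => rfl
  have hW0 : ∀ b ∈ Ac, 0 ≤ W b := by
    intro b hb
    rw [hWdef]
    have := hgg b hb
    have := hI.nonneg (S.cls b)
    positivity
  set t : ι → ℝ := fun p => 1 / a + ∑ b ∈ Ac, if p ∈ S.Q b then W b else 0 with ht
  have ht1 : ∀ b ∈ Ac, ∀ p ∈ S.Q b, t p = 1 / a + W b := by
    intro b hb p hp
    rw [ht]
    simp only
    rw [sum_eq_single b, if_pos hp]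
    · intro b' hb' hne
      rw [if_neg]
      intro h
      exact hne (uniq hAc hb hb' hp h)
    · intro h; exact absurd hb h
  have ht2 : ∀ p, (∀ b ∈ Ac, p ∉ S.Q b) → t p = 1 / a := by
    intro p hp
    rw [ht]
    simp only
    rw [sum_eq_zero, add_zero]
    intro b hb
    rw [if_neg (hp b hb)]
  have hc1 : ∀ b ∈ Ac, (1 : ℝ) ≤ (S.Q b).card := fun b hb => by
    have : 0 < (S.Q b).card := card_pos.mpr ⟨_, S.w_mem b⟩
    exact_mod_cast this
  have hrow : ∀ p, ∑ q, ((col S Ac q).card : ℝ) * ‖Tm p q‖ ^ 2 ≤ t p := by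
    intro p
    by_cases hp : ∀ b ∈ Ac, p ∉ S.inn b
    · have h1 : ∑ q, ((col S Ac q).card : ℝ) * ‖Tm p q‖ ^ 2 =
          ((col S Ac p).card : ℝ) * (1 / gam u p) := by
        rw [sum_eq_single p]
        · rw [hT1 p hp, if_pos rfl, norm_div, norm_one, Complex.norm_real,
            Real.norm_of_nonneg (Real.sqrt_nonneg _), div_pow, one_pow, Real.sq_sqrt (hγ p).le]
        · intro q _ hq
          rw [hT1 p hp, if_neg (Ne.symm hq)]
          simp
        · intro h; exact absurd (mem_univ _) h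
      rw [h1]
      by_cases hpQ : ∀ b ∈ Ac, p ∉ S.Q b
      · rw [col_of_not hpQ, ht2 p hpQ]
        have := hoff p hpQ
        simpa using this
      · push Not at hpQ
        obtain ⟨b, hb, hpb⟩ := hpQ
        rw [ht1 b hb p hpb]
        have h2 := col_card hAc hb hpb
        have h3 := hg4 b hb p hpb (hp b hb)
        have h4 : 0 < 1 / gam u p := by have := hγ p; positivity
        have hgp := hgg b hb
        have h5 : ((col S Ac p).card : ℝ) * (1 / gam u p) ≤
            (S.Q b).card * (1 / a + 1 / S.gg A b V) := by gcongr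
        have h6 : ((S.Q b).card : ℝ) * (1 / a + 1 / S.gg A b V) ≤ W b := by
          rw [hWdef]
          have h7 : ((S.Q b).card : ℝ) ≤ ((S.Q b).card : ℝ) ^ 2 *
              (1 + 4 * (d ^ 2 + 1) * Rb (S.cls b) ^ 2) := by
            have h8 := hc1 b hb
            have h9 : 0 ≤ 4 * (d ^ 2 + 1) * Rb (S.cls b) ^ 2 := by positivity
            nlinarith [mul_nonneg (sq_nonneg ((S.Q b).card : ℝ)) h9]
          exact mul_le_mul_of_nonneg_right h7 (by positivity)
        have h10 : 0 ≤ 1 / a := by positivity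
        linarith
    · push Not at hp
      obtain ⟨b, hb, hpb⟩ := hp
      have hpQ := hinnQ b p hpb
      rw [ht1 b hb p hpQ]
      have hgp := hgg b hb
      have hRb := hI.nonneg (S.cls b)
      have hdd := hd0 p
      have h1 : ∀ q, ((col S Ac q).card : ℝ) * ‖Tm p q‖ ^ 2 ≤ if q ∈ S.Q b then
          ((S.Q b).card : ℝ) * ((2 * d * Rb (S.cls b)) ^ 2 * (1 / a + 1 / S.gg A b V)) else 0 := by
        intro q
        by_cases hq : q ∈ S.Q b
        · rw [if_pos hq]
          have h2 := col_card hAc hb hq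
          have h3 : ‖Tm p q‖ ^ 2 ≤ (2 * d * Rb (S.cls b)) ^ 2 * (1 / a + 1 / S.gg A b V) := by
            rw [hT2 b hb p hpb]
            split_ifs with hqi
            · simp
              positivity
            · rw [norm_div, norm_neg, Complex.norm_real, Real.norm_of_nonneg (Real.sqrt_nonneg _),
                div_pow, Real.sq_sqrt (hγ q).le, div_eq_mul_one_div]
              have h4 := hg4 b hb q hq hqi
              have h5 : ‖∑ p', RR b p p' * (A p' q : ℂ)‖ ≤ 2 * d * Rb (S.cls b) := by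
                have h6 : ∑ p', RR b p p' * (A p' q : ℂ) =
                    ∑ p' ∈ N q, RR b p p' * (A p' q : ℂ) := by
                  symm
                  refine sum_subset (subset_univ _) fun p' _ hp' => ?_
                  by_cases hpi : p' ∈ S.inn b
                  · have hne : q ≠ p' := fun h => hqi (h ▸ hpi)
                    have : A p' q = 0 := by
                      rw [← hS.symm.apply p' q]
                      exact hG.supp q p' hne hp'
                    rw [this]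
                    simp
                  · rw [hRR]
                    simp only
                    rw [RC_right A u p hpi, zero_mul]
                rw [h6]
                refine (norm_sum_le _ _).trans ?_
                have h7 : ∀ p' ∈ N q, ‖RR b p p' * (A p' q : ℂ)‖ ≤ 2 * Rb (S.cls b) := by
                  intro p' _
                  by_cases hpi : p' ∈ S.inn b
                  · have hne : p' ≠ q := fun h => hqi (h ▸ hpi)
                    rw [norm_mul, Complex.norm_real, Real.norm_eq_abs]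
                    calc ‖RR b p p'‖ * |A p' q| ≤ (2 * Rb (S.cls b)) * 1 :=
                          mul_le_mul (hRRle b hb p p') (hG.hop p' q hne) (abs_nonneg _)
                            (by positivity)
                      _ = _ := mul_one _
                  · rw [hRR]
                    simp only
                    rw [RC_right A u p hpi, zero_mul, norm_zero]
                    positivity
                refine (sum_le_sum h7).trans ?_
                rw [sum_const, nsmul_eq_mul]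
                have h8 := hG.card q
                calc ((N q).card : ℝ) * (2 * Rb (S.cls b)) ≤ d * (2 * Rb (S.cls b)) := by gcongr
                  _ = 2 * d * Rb (S.cls b) := by ring
              have h9 : 0 < 1 / gam u q := by have := hγ q; positivity
              gcongr
          gcongr
        · rw [if_neg hq, hTS p q]
          · simp
          · intro h
            rw [col, mem_insert] at h
            rcases h with h | h
            · exact hq (h ▸ hpQ)
            · obtain ⟨b', hb', hpb'⟩ := mem_biUnion.mp h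
              have h2 := mem_filter.mp hb'
              have h3 := uniq hAc hb h2.1 hpQ (hinnQ b' p hpb')
              rw [h3] at h2
              exact hq h2.2
      refine (sum_le_sum fun q _ => h1 q).trans ?_
      rw [← sum_filter, filter_mem_eq_inter, univ_inter, sum_const, nsmul_eq_mul]
      have h10 : ((S.Q b).card : ℝ) * (((S.Q b).card : ℝ) * ((2 * d * Rb (S.cls b)) ^ 2 *
          (1 / a + 1 / S.gg A b V))) ≤ W b := by
        rw [hWdef]
        have h11 : ((S.Q b).card : ℝ) * (((S.Q b).card : ℝ) * ((2 * d * Rb (S.cls b)) ^ 2 *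
          (1 / a + 1 / S.gg A b V))) = ((S.Q b).card : ℝ) ^ 2 * (4 * d ^ 2 * Rb (S.cls b) ^ 2) *
          (1 / a + 1 / S.gg A b V) := by ring
        rw [h11]
        gcongr
        nlinarith [sq_nonneg (Rb (S.cls b))]
      have h12 : 0 ≤ 1 / a := by positivity
      linarith
  have hrowR : ∀ p, ∑ q, ((col S Ac q).card : ℝ) * ‖Rm p q‖ ^ 2 ≤ t p := by
    intro p
    by_cases hp : ∀ b ∈ Ac, p ∉ S.inn b
    · rw [sum_eq_zero]
      · have h1 : 0 ≤ ∑ b ∈ Ac, if p ∈ S.Q b then W b else 0 :=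
          sum_nonneg fun b hb => by split_ifs; exacts [hW0 b hb, le_rfl]
        have h2 : 0 ≤ 1 / a := by positivity
        rw [ht]
        simp only
        linarith
      · intro q _
        rw [hR1 p hp]
        simp
    · push Not at hp
      obtain ⟨b, hb, hpb⟩ := hp
      have hpQ := hinnQ b p hpb
      rw [ht1 b hb p hpQ]
      have hgp := hgg b hb
      have hRb := hI.nonneg (S.cls b)
      have h1 : ∀ q, ((col S Ac q).card : ℝ) * ‖Rm p q‖ ^ 2 ≤ if q ∈ S.Q b then
          ((S.Q b).card : ℝ) * (2 * Rb (S.cls b)) ^ 2 else 0 := by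
        intro q
        by_cases hqi : q ∈ S.inn b
        · have hq := hinnQ b q hqi
          rw [if_pos hq]
          have h2 := col_card hAc hb hq
          have h3 : ‖Rm p q‖ ^ 2 ≤ (2 * Rb (S.cls b)) ^ 2 := by
            rw [hR2 b hb p hpb, norm_mul, mul_pow, Complex.norm_real,
              Real.norm_of_nonneg (Real.sqrt_nonneg _), Real.sq_sqrt (hγ q).le, hg3 b hb q hqi]
            have h4 := hRRle b hb p q
            have h5 := S.et_le (S.cls b)
            have h6 := (S.et_pos (S.cls b)).le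
            calc ‖RR b p q‖ ^ 2 * S.et (S.cls b) ≤ (2 * Rb (S.cls b)) ^ 2 * 1 := by gcongr
              _ = _ := mul_one _
          gcongr
        · have h2 : Rm p q = 0 := by
            rw [hR2 b hb p hpb, hRR]
            simp only
            rw [RC_right A u p hqi, zero_mul]
          rw [h2]
          split_ifs
          · simp
            positivity
          · simp
      refine (sum_le_sum fun q _ => h1 q).trans ?_
      rw [← sum_filter, filter_mem_eq_inter, univ_inter, sum_const, nsmul_eq_mul]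
      have h10 : ((S.Q b).card : ℝ) * (((S.Q b).card : ℝ) * (2 * Rb (S.cls b)) ^ 2) ≤ W b := by
        rw [hWdef]
        have h11 : ((S.Q b).card : ℝ) * (((S.Q b).card : ℝ) * (2 * Rb (S.cls b)) ^ 2) =
          ((S.Q b).card : ℝ) ^ 2 * (4 * Rb (S.cls b) ^ 2) * 1 := by ring
        rw [h11]
        have h12 : 1 ≤ 1 / a + 1 / S.gg A b V := by
          have h13 : 1 ≤ 1 / a := by
            rw [le_div_iff₀ ha]; linarith
          have h14 : 0 ≤ 1 / S.gg A b V := by positivity
          linarith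
        have h15 : 4 * Rb (S.cls b) ^ 2 ≤ 1 + 4 * (d ^ 2 + 1) * Rb (S.cls b) ^ 2 := by
          nlinarith [sq_nonneg (Rb (S.cls b)), sq_nonneg (d * Rb (S.cls b))]
        gcongr
      have h16 : 0 ≤ 1 / a := by positivity
      linarith
  have hrow' : ∀ (M : Matrix ι ι ℂ), (∀ p, ∑ q, ((col S Ac q).card : ℝ) * ‖M p q‖ ^ 2 ≤ t p) →
      ∀ p, ∑ q, ‖M p q‖ ^ 2 ≤ t p := by
    intro M hM p
    refine le_trans (sum_le_sum fun q _ => ?_) (hM p)
    have := one_le_col (S := S) Ac q
    nlinarith [sq_nonneg ‖M p q‖]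
  -- the four Hilbert-Schmidt norms
  have hJN : ∀ j p p', p' ∉ N p → Jm A (ξ j) p p' = 0 := by
    intro j p p' h
    rw [Jm, of_apply]
    by_cases hpp : p = p'
    · subst hpp; simp
    · rw [hG.supp p p' hpp h]; simp
  have hJ1 : ∀ j p p', ‖Jm A (ξ j) p p'‖ ≤ 1 := by
    intro j p p'
    rw [Jm, of_apply, ← Complex.ofReal_mul, Complex.norm_real, Real.norm_eq_abs]
    exact hG.step j p p'
  have hb : ∀ j, ∀ M1 M2 : Matrix ι ι ℂ, (∀ p q, p ∉ col S Ac q → M1 p q = 0) →
      (∀ p, ∑ q, ((col S Ac q).card : ℝ) * ‖M1 p q‖ ^ 2 ≤ t p) →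
      (∀ p, ∑ q, ((col S Ac q).card : ℝ) * ‖M2 p q‖ ^ 2 ≤ t p) →
      hs (M1ᵀ * Jm A (ξ j) * M2) ≤ d ^ 2 * ∑ p, t p ^ 2 := by
    intro j M1 M2 h1 h2 h3
    refine (hs_bilin M1 M2 (Jm A (ξ j)) (col S Ac) N d h1 (hJN j) hG.symN hG.card (hJ1 j) t t h2
      (hrow' M2 h3)).trans (le_of_eq ?_)
    ring
  have h1 := start_le hS.symm hL ξ Tm Rm hK
  have h2 : ∀ j, 4 * (hs (Tmᵀ * Jm A (ξ j) * Tm) + hs (Tmᵀ * Jm A (ξ j) * Rm) +
      hs (Rmᵀ * Jm A (ξ j) * Tm) + hs (Rmᵀ * Jm A (ξ j) * Rm)) ≤ 16 * d ^ 2 * ∑ p, t p ^ 2 := by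
    intro j
    have e1 := hb j Tm Tm hTS hrow hrow
    have e2 := hb j Tm Rm hTS hrow hrowR
    have e3 := hb j Rm Tm hRS' hrowR hrow
    have e4 := hb j Rm Rm hRS' hrowR hrowR
    linarith
  have h3 : ∑ p, t p ^ 2 ≤ 2 * (Fintype.card ι / a ^ 2 + ∑ b ∈ Ac, (S.Q b).card * W b ^ 2) := by
    have h4 : ∀ p, t p ^ 2 ≤ 2 * (1 / a ^ 2 + ∑ b ∈ Ac, if p ∈ S.Q b then W b ^ 2 else 0) := by
      intro p
      by_cases hpQ : ∀ b ∈ Ac, p ∉ S.Q b
      · rw [ht2 p hpQ, sum_eq_zero, add_zero]
        · have : 0 ≤ 1 / a ^ 2 := by positivity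
          rw [div_pow, one_pow]
          linarith
        · intro b hb
          rw [if_neg (hpQ b hb)]
      · push Not at hpQ
        obtain ⟨b, hb, hpb⟩ := hpQ
        rw [ht1 b hb p hpb, sum_eq_single b, if_pos hpb]
        · have : (1 : ℝ) / a ^ 2 = (1 / a) ^ 2 := by rw [div_pow, one_pow]
          rw [this]
          nlinarith [sq_nonneg (1 / a - W b)]
        · intro b' hb' hne
          rw [if_neg]
          intro h
          exact hne (uniq hAc hb hb' hpb h)
        · intro h; exact absurd hb h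
    refine (sum_le_sum fun p _ => h4 p).trans (le_of_eq ?_)
    rw [← mul_sum, sum_add_distrib, sum_const, card_univ, nsmul_eq_mul, sum_comm]
    congr 2
    · ring
    · refine sum_congr rfl fun b _ => ?_
      rw [← sum_filter, filter_mem_eq_inter, univ_inter, sum_const, nsmul_eq_mul]
  calc DU A ξ u ≤ ∑ _j : κ, 16 * d ^ 2 * ∑ p, t p ^ 2 := h1.trans (sum_le_sum fun j _ => h2 j)
    _ = 16 * Fintype.card κ * d ^ 2 * ∑ p, t p ^ 2 := by
        rw [sum_const, card_univ, nsmul_eq_mul]
        ring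
    _ ≤ 16 * Fintype.card κ * d ^ 2 *
        (2 * (Fintype.card ι / a ^ 2 + ∑ b ∈ Ac, (S.Q b).card * W b ^ 2)) := by gcongr
    _ = _ := by ring

end Pool.Agent.Lib.MP_562b47_mp.ST
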