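import Pool.Agent.Lib.MP_562b47_mp.AL.Comm
import Pool.Agent.Lib.MP_562b47_mp.WO.Basic

/-!
MP_562b47, section 3 (start): elimination of a finite set `T` of sites.
`RC A T u` = inverse of the restriction of `A + diag u` to `T`, extended by zero;
`G_px = ∑_{p'} RC_pp' (δ_p'x - ∑_{q ∉ T} A_p'q G_qx)` for `p ∈ T`.
-/

open Matrix Finset

set_option linter.unusedSectionVars false

namespace Pool.Agent.Lib.MP_562b47_mp.ST

open Pool.Agent.Lib.MP_562b47_mp.AL Pool.Agent.Lib.MP_562b47_mp.WO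

variable {ι : Type*} [Fintype ι] [DecidableEq ι]

/-- the restriction of `A + diag u` to `T` -/
noncomputable def HC (A : Matrix ι ι ℝ) (T : Finset ι) (u : ι → ℂ) : Matrix T T ℂ :=
  Matrix.of fun x y => (A x y : ℂ) + if x = y then u x else 0

open Classical in
/-- its inverse, extended by zero -/
noncomputable def RC (A : Matrix ι ι ℝ) (T : Finset ι) (u : ι → ℂ) (x y : ι) : ℂ :=
  if hx : x ∈ T then (if hy : y ∈ T then (HC A T u)⁻¹ ⟨x, hx⟩ ⟨y, hy⟩ else 0) else 0

theorem RC_left (A : Matrix ι ι ℝ) {T : Finset ι} (u : ι → ℂ) {x : ι} (hx : x ∉ T) (y : ι) :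
    RC A T u x y = 0 := by
  unfold RC
  rw [dif_neg hx]

theorem RC_right (A : Matrix ι ι ℝ) {T : Finset ι} (u : ι → ℂ) (x : ι) {y : ι} (hy : y ∉ T) :
    RC A T u x y = 0 := by
  unfold RC
  split_ifs <;> rfl

theorem RC_of_mem (A : Matrix ι ι ℝ) {T : Finset ι} (u : ι → ℂ) {x y : ι} (hx : x ∈ T)
    (hy : y ∈ T) : RC A T u x y = (HC A T u)⁻¹ ⟨x, hx⟩ ⟨y, hy⟩ := by
  unfold RC
  rw [dif_pos hx, dif_pos hy]

theorem HC_det {A : Matrix ι ι ℝ} (hA : A.IsSymm) (T : Finset ι) {u : ι → ℂ} (hu : Loss u) :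
    IsUnit (HC A T u).det := by
  have h1 : HC A T u = HM (A.submatrix (fun x : T => (x : ι)) (fun x : T => (x : ι)))
      (fun x : T => u x) := by
    ext x y
    rw [HM_apply, HC, of_apply, submatrix_apply]
  rw [h1]
  apply HM_det
  · ext x y
    simp only [transpose_apply, submatrix_apply]
    exact hA.apply _ _
  · intro x
    exact hu x

/-- elimination of the sites of `T` -/
theorem elim {A : Matrix ι ι ℝ} (hA : A.IsSymm) (T : Finset ι) {u : ι → ℂ} (hu : Loss u)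
    {p : ι} (hp : p ∈ T) (x : ι) :
    GM A u p x = ∑ p', RC A T u p p' *
      ((if p' = x then 1 else 0) - ∑ q ∈ univ \ T, (A p' q : ℂ) * GM A u q x) := by
  have h1 : ∀ p' : T, ∑ q : T, HC A T u p' q * GM A u q x =
      (if (p' : ι) = x then 1 else 0) - ∑ q ∈ univ \ T, (A p' q : ℂ) * GM A u q x := by
    intro p'
    have h2 := congrFun (congrFun (HM_mul_GM hA hu) p') x
    rw [mul_apply, one_apply] at h2
    rw [← h2, ← sum_sdiff (subset_univ T)]
    have h3 : ∑ q ∈ univ \ T, HM A u p' q * GM A u q x =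
        ∑ q ∈ univ \ T, (A p' q : ℂ) * GM A u q x := by
      refine sum_congr rfl fun q hq => ?_
      have : (p' : ι) ≠ q := by
        rintro h
        exact (mem_sdiff.mp hq).2 (h ▸ p'.2)
      rw [HM_apply, if_neg this, add_zero]
    rw [h3, add_sub_cancel_left, ← sum_coe_sort T]
    refine sum_congr rfl fun q _ => ?_
    rw [HM_apply, HC, of_apply]
    by_cases h : p' = q
    · rw [if_pos h, if_pos (congrArg _ h)]
    · rw [if_neg h, if_neg (fun h' => h (Subtype.ext h'))]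
  have h4 : ∑ p', RC A T u p p' *
      ((if p' = x then 1 else 0) - ∑ q ∈ univ \ T, (A p' q : ℂ) * GM A u q x) =
      ∑ p' : T, (HC A T u)⁻¹ ⟨p, hp⟩ p' *
      ((if (p' : ι) = x then 1 else 0) - ∑ q ∈ univ \ T, (A p' q : ℂ) * GM A u q x) := by
    rw [← sum_subset (subset_univ T), ← sum_coe_sort T]
    · refine sum_congr rfl fun p' _ => ?_
      rw [RC_of_mem A u hp p'.2]
    · intro y _ hy
      rw [RC_right A u p hy, zero_mul]
  rw [h4]
  simp_rw [← h1, mul_sum]
  rw [sum_comm]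
  have h5 : (HC A T u)⁻¹ * HC A T u = 1 := nonsing_inv_mul _ (HC_det hA T hu)
  have h6 : ∀ q : T, ∑ p' : T, (HC A T u)⁻¹ ⟨p, hp⟩ p' * (HC A T u p' q * GM A u q x) =
      (if (⟨p, hp⟩ : T) = q then 1 else 0) * GM A u q x := by
    intro q
    have h7 := congrFun (congrFun h5 ⟨p, hp⟩) q
    rw [mul_apply, one_apply] at h7
    rw [← h7, sum_mul]
    exact sum_congr rfl fun p' _ => by ring
  simp_rw [h6]
  rw [Finset.sum_eq_single ⟨p, hp⟩]
  · simp
  · intro q _ hq
    rw [if_neg (Ne.symm hq), zero_mul]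
  · intro h; exact absurd (mem_univ _) h

/-- the complex inverse is controlled by the real one if the background is small -/
theorem RC_le {A : Matrix ι ι ℝ} (hA : A.IsSymm) (T : Finset ι) {u : ι → ℂ} (hu : Loss u)
    (V : ι → ℝ) {e R : ℝ} (hdet : (HS A T V).det ≠ 0) (he : 0 ≤ e) (hR : 0 ≤ R)
    (huV : ∀ x ∈ T, u x = (V x : ℂ) - (e : ℂ) * Complex.I)
    (hRS : ∀ x y, |RS A T V x y| ≤ R) (hsm : e * T.card * R ≤ 1 / 2) (x y : ι) :
    ‖RC A T u x y‖ ≤ 2 * R := by
  by_cases hx : x ∈ T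
  swap
  · rw [RC_left A u hx, norm_zero]; linarith
  by_cases hy : y ∈ T
  swap
  · rw [RC_right A u x hy, norm_zero]; linarith
  set Hr : Matrix T T ℂ := (HS A T V).map (fun r : ℝ => (r : ℂ)) with hHr
  set Ri : Matrix T T ℂ := ((HS A T V)⁻¹).map (fun r : ℝ => (r : ℂ)) with hRi
  have e1 : Ri * Hr = 1 := by
    have h := nonsing_inv_mul (HS A T V) (isUnit_iff_ne_zero.mpr hdet)
    have h2 : ((HS A T V)⁻¹ * HS A T V).map (Complex.ofRealHom : ℝ → ℂ) =
        ((HS A T V)⁻¹).map (Complex.ofRealHom : ℝ → ℂ) * (HS A T V).map (Complex.ofRealHom : ℝ → ℂ) :=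
      Matrix.map_mul
    rw [h] at h2
    have h3 : (1 : Matrix T T ℝ).map (Complex.ofRealHom : ℝ → ℂ) = 1 := by
      simp
    rw [h3] at h2
    exact h2.symm
  have e2 : HC A T u = Hr - ((e : ℂ) * Complex.I) • (1 : Matrix T T ℂ) := by
    ext p q
    rw [HC, of_apply, Matrix.sub_apply, Matrix.smul_apply, hHr, map_apply, HS, of_apply, one_apply]
    by_cases h : p = q
    · subst h
      rw [if_pos rfl, if_pos rfl, if_pos rfl, huV p p.2]
      push_cast
      simp only [smul_eq_mul]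
      ring
    · rw [if_neg h, if_neg h, if_neg h]
      push_cast
      simp
  have e3 : HC A T u * (HC A T u)⁻¹ = 1 := mul_nonsing_inv _ (HC_det hA T hu)
  have e4 : (HC A T u)⁻¹ = Ri + ((e : ℂ) * Complex.I) • (Ri * (HC A T u)⁻¹) := by
    have h1 : Ri * (HC A T u * (HC A T u)⁻¹) = Ri := by rw [e3, mul_one]
    rw [← mul_assoc] at h1
    have h2 : Ri * HC A T u = 1 - ((e : ℂ) * Complex.I) • Ri := by
      rw [e2, mul_sub, e1, Matrix.mul_smul, mul_one]
    rw [h2, sub_mul, one_mul, Matrix.smul_mul, sub_eq_iff_eq_add] at h1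
    exact h1
  have hRi' : ∀ p q : T, ‖Ri p q‖ ≤ R := by
    intro p q
    rw [hRi, map_apply, Complex.norm_real, Real.norm_eq_abs]
    have := hRS p q
    rw [RS_of_mem A V p.2 q.2] at this
    exact this
  -- the maximal entry
  obtain ⟨⟨p0, q0⟩, -, hmax⟩ := exists_max_image (univ : Finset (T × T))
    (fun z => ‖(HC A T u)⁻¹ z.1 z.2‖) ⟨(⟨x, hx⟩, ⟨y, hy⟩), mem_univ _⟩
  set m := ‖(HC A T u)⁻¹ p0 q0‖ with hm
  have hm1 : ∀ p q : T, ‖(HC A T u)⁻¹ p q‖ ≤ m := fun p q => hmax (p, q) (mem_univ _)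
  have hm0 : 0 ≤ m := norm_nonneg _
  have h5 : m ≤ R + e * (T.card * (R * m)) := by
    have h6 : (HC A T u)⁻¹ p0 q0 = Ri p0 q0 +
        ((e : ℂ) * Complex.I) * ∑ z, Ri p0 z * (HC A T u)⁻¹ z q0 := by
      conv_lhs => rw [e4]
      rw [Matrix.add_apply, Matrix.smul_apply, mul_apply, smul_eq_mul]
    have h66 : m = ‖Ri p0 q0 + ((e : ℂ) * Complex.I) * ∑ z, Ri p0 z * (HC A T u)⁻¹ z q0‖ := by
      rw [← h6]
    refine h66.le.trans ?_
    refine (norm_add_le _ _).trans (add_le_add (hRi' _ _) ?_)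
    rw [norm_mul, norm_mul, Complex.norm_I, mul_one, Complex.norm_real, Real.norm_of_nonneg he]
    refine mul_le_mul_of_nonneg_left ?_ he
    refine (norm_sum_le _ _).trans ?_
    calc ∑ z, ‖Ri p0 z * (HC A T u)⁻¹ z q0‖ ≤ ∑ _z : T, R * m := by
          refine sum_le_sum fun z _ => ?_
          rw [norm_mul]
          exact mul_le_mul (hRi' _ _) (hm1 _ _) (norm_nonneg _) hR
      _ = T.card * (R * m) := by
          rw [sum_const, card_univ, Fintype.card_coe, nsmul_eq_mul]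
  have h7 : m ≤ 2 * R := by
    have : e * (T.card * (R * m)) ≤ 1 / 2 * m := by
      calc e * (T.card * (R * m)) = (e * T.card * R) * m := by ring
        _ ≤ 1 / 2 * m := by gcongr
    linarith
  rw [RC_of_mem A u hx hy]
  exact (hm1 _ _).trans h7

end Pool.Agent.Lib.MP_562b47_mp.ST
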